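import Pool.Agent.helper66.SL.SpecC

/-! # Row NBC of project sl (MP_ad2b66_co) -/

set_option autoImplicit false

namespace Pool.Agent.helper66.SL

open Pool.Agent.helper52.FC

/-- The data of a tope `S` above `v` with wall `e`: the other wall `l` in `z(v)` and the other vertex
`w` on `e`. -/
def NBC_D {E : Type} (L : Set (E → SignType)) (e : E) (v S : E → SignType) (l : E)
    (w : E → SignType) : Prop :=
  l ≠ e ∧ Wall L S l ∧ v l = 0 ∧ Cork L w 2 ∧ Le w S ∧ w e = 0 ∧ w ≠ v ∧ w l ≠ 0 ∧
    (∀ g, Wall L S g → v g = 0 → g = e ∨ g = l) ∧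
    ∀ s, Cork L s 2 → Le s S → s e = 0 → s = v ∨ s = w

theorem NBC_gen {E : Type} {L : Set (E → SignType)} {S : E → SignType} {a b c : E}
    {u v w : E → SignType} (hab : a ≠ b) (hw : ∀ g, Wall L S g ↔ g = a ∨ g = b ∨ g = c)
    (hcw : Cork L w 2) (hlw : Le w S) (vb : v b = 0) (vc : v c ≠ 0)
    (wa : w a = 0) (wb : w b ≠ 0) (ua : u a ≠ 0)
    (hs : ∀ s, Cork L s 2 → Le s S → s = u ∨ s = v ∨ s = w) : NBC_D L a v S b w := by
  refine ⟨hab.symm, (hw b).2 (Or.inr (Or.inl rfl)), vb, hcw, hlw, wa, ?_, wb, ?_, ?_⟩
  · intro h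
    exact wb (by rw [h]; exact vb)
  · intro g hg hv
    rcases (hw g).1 hg with h | h | h
    · exact Or.inl h
    · exact Or.inr h
    · exact absurd (h ▸ hv) vc
  · intro s h1 h2 h3
    rcases hs s h1 h2 with h | h
    · exact absurd (h ▸ h3) ua
    · exact h

theorem NBC_ex (hTRI : TRI) {E : Type} [Finite E] {L : Set (E → SignType)} (hL : R3 L)
    {e : E} {v S : E → SignType} (hv : Cork L v 2) (hve : v e = 0) (hS : IsTope L S)
    (hSe : Wall L S e) (hle : Le v S) : ∃ l w, NBC_D L e v S l w := by
  obtain ⟨i, j, k, p, q, r, hij, hik, hjk, hw, cp, cq, cr, lp, lq, lr, pi, pj, pk, qi, qj, qk, ri,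
    rj, rk, hs⟩ := hTRI E L hL S hS
  rcases (hw e).1 hSe with he | he | he
  · subst he
    rcases hs v hv hle with h | h | h
    · exact absurd (h ▸ hve) pi
    · subst h
      exact ⟨k, r, NBC_gen (c := j) (u := p) hik
        (fun g => by rw [hw g]; tauto) cr lr qk qj ri rk pi
        (fun s h1 h2 => by rcases hs s h1 h2 with h | h | h <;> tauto)⟩
    · subst h
      exact ⟨j, q, NBC_gen (c := k) (u := p) hij
        (fun g => by rw [hw g]) cq lq rj rk qi qj pi
        (fun s h1 h2 => by rcases hs s h1 h2 with h | h | h <;> tauto)⟩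
  · subst he
    rcases hs v hv hle with h | h | h
    · subst h
      exact ⟨k, r, NBC_gen (c := i) (u := q) hjk
        (fun g => by rw [hw g]; tauto) cr lr pk pi rj rk qj
        (fun s h1 h2 => by rcases hs s h1 h2 with h | h | h <;> tauto)⟩
    · exact absurd (h ▸ hve) qj
    · subst h
      exact ⟨i, p, NBC_gen (c := k) (u := q) hij.symm
        (fun g => by rw [hw g]; tauto) cp lp ri rk pj pi qj
        (fun s h1 h2 => by rcases hs s h1 h2 with h | h | h <;> tauto)⟩
  · subst he
    rcases hs v hv hle with h | h | h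
    · subst h
      exact ⟨j, q, NBC_gen (c := i) (u := r) hjk.symm
        (fun g => by rw [hw g]; tauto) cq lq pj pi qk qj rk
        (fun s h1 h2 => by rcases hs s h1 h2 with h | h | h <;> tauto)⟩
    · subst h
      exact ⟨i, p, NBC_gen (c := j) (u := r) hik.symm
        (fun g => by rw [hw g]; tauto) cp lp qi qj pk pi rk
        (fun s h1 h2 => by rcases hs s h1 h2 with h | h | h <;> tauto)⟩
    · exact absurd (h ▸ hve) rk

theorem NBC_proof (hWFZ : WFZ) (hGEO : GEO) (hGAT : GAT) (hPAT : PAT) (hSZZ : SZZ) (hTRI : TRI) :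
    NBC := by
  intro E _ L hL v e hv hve
  have hom := hL.good.om
  have hsi := hL.good.simple
  refine ⟨?_, ?_⟩
  swap
  · rintro ⟨_, _, _, _, hne, T, _, _, h1, h2⟩
    apply hne
    funext g
    by_contra hg
    have hg0 : v g ≠ 0 := by
      intro h0
      apply hg
      show v g = -v g
      rw [h0]
      rfl
    rcases h1 g with h | h
    · exact hg0 h
    · rcases h2 g with h' | h'
      · apply hg0
        have h3 : -v g = 0 := h'
        simpa using h3
      · exact hg (h.trans h'.symm)
  obtain ⟨T, hT, hvT, hTe⟩ := hGAT E L hom hsi v hv.1 e hve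
  obtain ⟨l, w, hd⟩ := NBC_ex hTRI hL hv hve hT hTe hvT
  obtain ⟨hle, hTl, hvl, hcw, hwT, hwe, hwv, hwl, huw, hus⟩ := hd
  have hTs : ∀ g, T g ≠ 0 := fun g => tope_supp hom hsi hT g
  have hTv : ∀ g, v g ≠ 0 → v g = T g := fun g hg => (hvT g).resolve_left hg
  obtain ⟨F, hF⟩ : ∃ F, F = cmp v (fun g => -(fz T e) g) := ⟨_, rfl⟩
  obtain ⟨T2, hT2⟩ : ∃ T2, T2 = cmp F T := ⟨_, rfl⟩
  have hFL : F ∈ L := by
    rw [hF]
    exact hom.comp v hv.1 _ (hom.neg _ ((hWFZ E L hom hsi T hT e).1 hTe))
  have F1 : F e = 0 := by
    rw [hF, cmp_pos hve]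
    show -(fz T e e) = 0
    rw [fz_same]
    rfl
  have F2 : ∀ g, v g ≠ 0 → F g = T g := by
    intro g hg
    rw [hF, cmp_neg hg]
    exact hTv g hg
  have F3 : ∀ g, v g = 0 → g ≠ e → F g = -T g := by
    intro g hg hge
    rw [hF, cmp_pos hg]
    show -(fz T e g) = -T g
    rw [fz_ne T hge]
  have T2e : T2 e = T e := by rw [hT2, cmp_pos F1]
  have T2v : ∀ g, v g ≠ 0 → T2 g = T g := by
    intro g hg
    rw [hT2, cmp_neg (by rw [F2 g hg]; exact hTs g), F2 g hg]
  have T2z : ∀ g, v g = 0 → g ≠ e → T2 g = -T g := by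
    intro g hg hge
    have hn : F g ≠ 0 := by
      rw [F3 g hg hge]
      intro h
      exact hTs g (by simpa using h)
    rw [hT2, cmp_neg hn, F3 g hg hge]
  have T2s : ∀ g, T2 g ≠ 0 := by
    intro g
    by_cases hg : v g = 0
    · by_cases hge : g = e
      · rw [hge, T2e]; exact hTs e
      · rw [T2z g hg hge]
        intro h
        exact hTs g (by simpa using h)
    · rw [T2v g hg]; exact hTs g
  have hT2t : IsTope L T2 := tope_of (by rw [hT2]; exact hom.comp F hFL T hT.1) T2s
  have hFz : fz T2 e = F := by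
    funext g
    by_cases hge : g = e
    · rw [hge, fz_same, F1]
    · rw [fz_ne T2 hge]
      by_cases hg : v g = 0
      · rw [T2z g hg hge, F3 g hg hge]
      · rw [T2v g hg, F2 g hg]
  have hT2w : Wall L T2 e := (hWFZ E L hom hsi T2 hT2t e).2 (by rw [hFz]; exact hFL)
  have hvT2 : Le v T2 := by
    intro g
    by_cases hg : v g = 0
    · exact Or.inl hg
    · exact Or.inr ((hTv g hg).trans (T2v g hg).symm)
  obtain ⟨l2, w2, hd2⟩ := NBC_ex hTRI hL hv hve hT2t hT2w hvT2
  obtain ⟨hle2, hTl2, hvl2, hcw2, hwT2, hwe2, hwv2, hwl2, huw2, hus2⟩ := hd2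
  have hww : w ≠ w2 := by
    intro h
    have h1 : w l = T l := (hwT l).resolve_left hwl
    have h2 : w l = T2 l := by
      have := hwT2 l
      rw [← h] at this
      exact this.resolve_left hwl
    rw [T2z l hvl hle, h1] at h2
    exact hTs l (sneg h2 rfl)
  have key : ∀ S, IsTope L S → Wall L S e → Le v S → S e = T e → S = T ∨ S = T2 := by
    intro S hS hSe hvS hST
    by_cases hne : S = T
    · exact Or.inl hne
    right
    obtain ⟨g, hg1, hg2⟩ := hGEO E L hom hsi T S hT hS (Ne.symm hne)
    have hge : g ≠ e := fun h => hg2 (by rw [h]; exact hST.symm)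
    have hvg : v g = 0 := by
      rcases hvS g with h | h
      · exact h
      · rcases hvT g with h' | h'
        · exact h'
        · exact absurd (h'.symm.trans h) hg2
    have hgl : g = l := (huw g hg1 hvg).resolve_left hge
    rw [hgl] at hg2
    have hSs : ∀ g, S g ≠ 0 := fun g => tope_supp hom hsi hS g
    have hSl : S l = -T l := sne (hSs l) (hTs l) (Ne.symm hg2)
    have hSv : ∀ g, v g ≠ 0 → S g = T g := fun g hg =>
      ((hvS g).resolve_left hg).symm.trans (hTv g hg)
    rcases (hSZZ E L hL.good hL.cl v hv).1 with h2 | h3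
    · have hz : ∀ g, v g = 0 → g = e ∨ g = l := by
        intro g hg
        have hsub : ({e, l} : Set E) ⊆ {g | v g = 0} := by
          intro x hx
          rcases hx with hx | hx
          · rw [hx]; exact hve
          · rw [Set.mem_singleton_iff.1 hx]; exact hvl
        have hn : ({e, l} : Set E).ncard = 2 := Set.ncard_pair hle.symm
        have heq := Set.eq_of_subset_of_ncard_le hsub (by rw [h2, hn]) (Set.toFinite _)
        have : g ∈ ({e, l} : Set E) := by rw [heq]; exact hg
        simpa using this
      funext g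
      by_cases hg : v g = 0
      · rcases hz g hg with h | h
        · rw [h, T2e, hST]
        · rw [h, hSl, T2z l hvl hle]
      · rw [hSv g hg, T2v g hg]
    · obtain ⟨c, hc⟩ : ∃ c, v c = 0 ∧ c ≠ e ∧ c ≠ l := by
        by_contra hno
        push Not at hno
        have hsub : {g | v g = 0} ⊆ ({e, l} : Set E) := by
          intro x hx
          by_cases hxe : x = e
          · left; exact hxe
          · right; exact hno x hx hxe
        have := Set.ncard_le_ncard hsub (Set.toFinite _)
        rw [h3, Set.ncard_pair hle.symm] at this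
        omega
      have hz : ∀ g, v g = 0 → g = l ∨ g = e ∨ g = c := by
        intro g hg
        have hsub : ({l, e, c} : Set E) ⊆ {g | v g = 0} := by
          intro x hx
          rcases hx with hx | hx | hx
          · rw [hx]; exact hvl
          · rw [hx]; exact hve
          · rw [Set.mem_singleton_iff.1 hx]; exact hc.1
        have hn : ({l, e, c} : Set E).ncard = 3 :=
          Set.ncard_eq_three.2 ⟨l, e, c, hle, hc.2.2.symm, hc.2.1.symm, rfl⟩
        have heq := Set.eq_of_subset_of_ncard_le hsub (by rw [h3, hn]) (Set.toFinite _)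
        have : g ∈ ({l, e, c} : Set E) := by rw [heq]; exact hg
        simpa using this
      by_cases hSc : S c = T c
      · exfalso
        have hSf : S = fl T l := by
          funext g
          by_cases hgl' : g = l
          · rw [hgl', fl_same, hSl]
          · rw [fl_ne T hgl']
            by_cases hg : v g = 0
            · rcases hz g hg with h | h | h
              · exact absurd h hgl'
              · rw [h, hST]
              · rw [h, hSc]
            · exact hSv g hg
        have := (hPAT E L hL.good v hv l e c hle hc.2.2 hc.2.1 hvl hve hc.1 hz T hT hvT hTl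
          hTe).2.2
        rw [← hSf] at this
        exact this hSe
      · have hSc' : S c = -T c := sne (hSs c) (hTs c) hSc
        funext g
        by_cases hg : v g = 0
        · rcases hz g hg with h | h | h
          · rw [h, hSl, T2z l hvl hle]
          · rw [h, T2e, hST]
          · rw [h, hSc', T2z c hc.1 hc.2.1]
        · rw [hSv g hg, T2v g hg]
  have hset : {w' | Nb L e v w'} = {w, w2} := by
    ext w'
    constructor
    · rintro ⟨_, hcw', _, hwe', hne', S, hS, hSe, hvS, hwS⟩
      have hfin : ∀ S, IsTope L S → Wall L S e → Le v S → Le w' S → S e = T e →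
          w' = w ∨ w' = w2 := by
        intro S hS hSe hvS hwS hST
        rcases key S hS hSe hvS hST with h | h
        · left
          rw [h] at hwS
          exact (hus w' hcw' hwS hwe').resolve_left (Ne.symm hne')
        · right
          rw [h] at hwS
          exact (hus2 w' hcw' hwS hwe').resolve_left (Ne.symm hne')
      by_cases hST : S e = T e
      · exact hfin S hS hSe hvS hwS hST
      · have hlef : ∀ x : E → SignType, x e = 0 → Le x S → Le x (fl S e) := by
          intro x hx hxS g
          by_cases hge : g = e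
          · left; rw [hge]; exact hx
          · rw [fl_ne S hge]; exact hxS g
        refine hfin (fl S e) hSe ?_ (hlef v hve hvS) (hlef w' hwe' hwS) ?_
        · show IsTope L (fl (fl S e) e)
          rw [fl_fl]
          exact hS
        · rw [fl_same]
          have := sne (tope_supp hom hsi hS e) (hTs e) hST
          rw [this, neg_neg]
    · rintro (h | h)
      · rw [h]
        exact ⟨hv, hcw, hve, hwe, hwv.symm, T, hT, hTe, hvT, hwT⟩
      · rw [Set.mem_singleton_iff.1 h]
        exact ⟨hv, hcw2, hve, hwe2, hwv2.symm, T2, hT2t, hT2w, hvT2, hwT2⟩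
  rw [hset]
  exact Set.ncard_pair hww

end Pool.Agent.helper66.SL
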